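import Mathlib
import Pool.Agent.KS6_98.Bogo.Main

set_option autoImplicit false

open KS6_98.Bogo

namespace Pool.Agent.Results.MP_3c7b25_co.WidthTradeoff

/-- **Dimension and width of Bohr sets in `kA - kA`.** (1) For every `k ≥ 1` there are sets
`A ⊆ [N]` of arbitrarily small density `α` such that every Bohr set of dimension `m` and width
`ρ ≤ 1 / 2` contained in `jA - jA` for some `j ≤ k` has
`log (1/α) log log (1/α) ≤ 25 log (4k) · m log (2/ρ)`. (2) There are sets `A ⊆ [N]` of arbitrarily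
small density `α` such that every Bohr set of dimension `m` and width `ρ ≤ 1 / 2` contained in
`jA - jA` for some `j ≤ (log (1/α)) ^ (1/5)` has `log (1/α) ≤ 6 m log (2/ρ)`. (3) There are sets
`A ⊆ [N]` of arbitrarily small density `α` such that for every `C > 0` the Bohr sets of dimension
at most `C log (1/α)` contained in `2A - 2A` have width at most `2 (log (1/α)) ^ (-1/(52 C))` (or
larger than `1 / 2`). -/
theorem result :
    (∀ k : ℕ, 1 ≤ k → ∀ δ : ℝ, 0 < δ → ∃ (N : ℕ) (A : Finset ℤ), A ⊆ Finset.Icc 1 (N : ℤ) ∧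
      0 < density A N ∧ density A N ≤ 1 / 2 ∧ density A N < δ ∧
      ∀ j : ℕ, j ≤ k → ∀ (Θ : Finset UnitAddCircle) (ρ : ℝ), 0 < ρ → ρ ≤ 1 / 2 →
        bohr Θ ρ N ⊆ kAMinusKA j A →
        Real.log (1 / density A N) * Real.log (Real.log (1 / density A N)) ≤
          25 * Real.log (4 * k) * (Θ.card * Real.log (2 / ρ))) ∧
    (∀ δ : ℝ, 0 < δ → ∃ (N : ℕ) (A : Finset ℤ), A ⊆ Finset.Icc 1 (N : ℤ) ∧
      0 < density A N ∧ density A N ≤ 1 / 2 ∧ density A N < δ ∧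
      ∀ j : ℕ, (j : ℝ) ^ 5 ≤ Real.log (1 / density A N) →
      ∀ (Θ : Finset UnitAddCircle) (ρ : ℝ), 0 < ρ → ρ ≤ 1 / 2 →
        bohr Θ ρ N ⊆ kAMinusKA j A →
        Real.log (1 / density A N) ≤ 6 * (Θ.card * Real.log (2 / ρ))) ∧
    (∀ δ : ℝ, 0 < δ → ∃ (N : ℕ) (A : Finset ℤ), A ⊆ Finset.Icc 1 (N : ℤ) ∧
      0 < density A N ∧ density A N ≤ 1 / 2 ∧ density A N < δ ∧
      ∀ (C : ℝ) (Θ : Finset UnitAddCircle) (ρ : ℝ), 0 < C → 0 < ρ → ρ ≤ 1 / 2 →
        (Θ.card : ℝ) ≤ C * Real.log (1 / density A N) →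
        bohr Θ ρ N ⊆ twoAMinusTwoA A →
        ρ ≤ 2 * Real.log (1 / density A N) ^ (-(1 / (52 * C)))) :=
  ⟨part_one, part_two, part_three⟩

end Pool.Agent.Results.MP_3c7b25_co.WidthTradeoff
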